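import Mathlib
import Pool.Agent.H13.Harb
import Pool.Agent.H15.KneB

namespace Pool.Agent.Results.MP_e67b39_co.Bounds
open Finset

/-- `A` is weakly zero-`h`-sum-free: no `h` distinct elements of `A` sum to `0`. -/
def Free {G : Type*} [AddCommGroup G] (h : ℕ) (A : Finset G) : Prop :=
  ∀ B ⊆ A, B.card = h → ∑ x ∈ B, x ≠ 0

lemma up (k : ℕ) (hk : 500 ≤ k) (A : Finset (ZMod 3 × ZMod (3 * k))) (h : Free (3 * k) A) :
    A.card ≤ 3 * k + 3 := by
  haveI : NeZero (3 * k) := ⟨by omega⟩
  by_contra hh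
  obtain ⟨S, hS, cS⟩ := exists_subset_card_eq (s := A) (n := 3 * k + 4) (by omega)
  obtain ⟨a, ha, b, hb, c, hc, d, hd, n1, n2, n3, n4, n5, n6, e⟩ :=
    Pool.Agent.H13.Harb.four k hk (by rw [Fintype.card_prod, ZMod.card, ZMod.card]; ring) (by
      intro y
      rcases (univ.filter fun x => x + x = y).eq_empty_or_nonempty with q | ⟨x, hx⟩
      · simp [q]
      · refine (card_le_card (t := {x, x + (0, ((3 * k / 2 : ℕ) : ZMod (3 * k)))}) ?_).trans card_le_two
        intro z hz
        rw [mem_filter] at hx hz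
        have e : (z - x) + (z - x) = 0 := by rw [← sub_self y]; nth_rw 1 [← hz.2, ← hx.2]; abel
        have e1 : (z - x).1 = 0 := by
          have := congrArg Prod.fst e
          simp only [Prod.fst_add, Prod.fst_zero] at this
          revert this; generalize (z - x).1 = w; revert w; decide
        have e2 : -(z - x).2 = (z - x).2 := by
          have := congrArg Prod.snd e
          simp only [Prod.snd_add, Prod.snd_zero] at this
          linear_combination -this
        rw [mem_insert, mem_singleton]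
        rcases (ZMod.neg_eq_self_iff _).1 e2 with q | q
        · left; exact sub_eq_zero.1 (Prod.ext e1 q)
        · right
          rw [← sub_eq_iff_eq_add']
          refine Prod.ext e1 ?_
          rw [show 3 * k / 2 = (z - x).2.val by omega]; simp) S cS
  have sub : ({a, b, c, d} : Finset _) ⊆ S := by
    intro x; simp only [mem_insert, mem_singleton]; rintro (rfl | rfl | rfl | rfl) <;> assumption
  refine h (S \ {a, b, c, d}) (sdiff_subset.trans hS) ?_ ?_
  · rw [card_sdiff_of_subset sub, cS, card_insert_of_notMem (by simp [*]),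
      card_insert_of_notMem (by simp [*]), card_pair n6]; omega
  · rw [sum_sdiff_eq_sub sub, sum_insert (by simp [*]), sum_insert (by simp [*]), sum_pair n6, ← e]
    abel

lemma pick {α : Type*} [DecidableEq α] (P : Finset α) (f : α → ℕ) (c N s : ℕ) (hc : 0 < c)
    (hs : s + c ≤ N * c) (h : ∀ i ≤ c, N ≤ (P.filter fun x => f x = i).card) :
    ∃ E ⊆ P, E.card = N ∧ ∑ x ∈ E, f x = s := by
  have hq : s / c + 1 ≤ N := by
    have : (s + c) / c ≤ N := Nat.div_le_of_le_mul (by rw [mul_comm]; exact hs)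
    rwa [Nat.add_div_right _ hc] at this
  have hr := Nat.mod_lt s hc
  obtain ⟨E1, s1, c1⟩ := exists_subset_card_eq (n := s / c) ((show s / c ≤ N by omega).trans (h c le_rfl))
  obtain ⟨z, hz⟩ : (P.filter fun x => f x = s % c).Nonempty :=
    card_pos.1 (by have := h (s % c) hr.le; omega)
  obtain ⟨E2, s2, c2⟩ := exists_subset_card_eq (s := (P.filter fun x => f x = 0).erase z)
    (n := N - s / c - 1) (by
      have := pred_card_le_card_erase (s := P.filter fun x => f x = 0) (a := z)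
      have := h 0 (Nat.zero_le _)
      omega)
  have m1 : ∀ x ∈ E1, x ∈ P ∧ f x = c := fun x hx => mem_filter.1 (s1 hx)
  have m2 : ∀ x ∈ E2, x ≠ z ∧ x ∈ P ∧ f x = 0 := fun x hx => by simpa using s2 hx
  rw [mem_filter] at hz
  have dj : Disjoint E1 E2 := disjoint_left.2 fun x h1 h2 => by
    have := (m1 x h1).2; have := (m2 x h2).2.2; omega
  have nz : z ∉ E1 ∪ E2 := by
    rw [mem_union, not_or]
    exact ⟨fun q => by have := (m1 z q).2; omega, fun q => (m2 z q).1 rfl⟩
  refine ⟨insert z (E1 ∪ E2), insert_subset hz.1 (union_subset (fun x hx => (m1 x hx).1)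
    fun x hx => (m2 x hx).2.1), ?_, ?_⟩
  · rw [card_insert_of_notMem nz, card_union_of_disjoint dj]; omega
  · rw [sum_insert nz, sum_union dj, sum_congr rfl fun x hx => (m1 x hx).2,
      sum_congr rfl fun x hx => (m2 x hx).2.2, sum_const, sum_const, c1, hz.2]
    simp only [smul_eq_mul, mul_zero, add_zero]
    rw [mul_comm]; exact Nat.mod_add_div s c

lemma low (d t : ℕ) (hd : d % 6 = 5) (ht : 0 < t) (h2 : t ≠ 2) :
    ∃ A : Finset (ZMod 3 × ZMod (3 * (d * t))), Free (3 * (d * t)) A ∧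
      A.card = 3 * (d * t) + 3 := by
  haveI : NeZero d := ⟨by omega⟩
  haveI : NeZero (3 * (d * t)) := ⟨mul_ne_zero (by omega) (mul_ne_zero (by omega) (by omega))⟩
  obtain ⟨c, hc⟩ : ∃ c, d = 3 * c + 2 := ⟨(d - 2) / 3, by omega⟩
  obtain ⟨u, rfl⟩ : ∃ u, t = u + 1 := ⟨t - 1, by omega⟩
  let φ : ZMod 3 × ZMod (3 * (d * (u + 1))) →+ ZMod d :=
    (ZMod.castHom (show d ∣ 3 * (d * (u + 1)) from ⟨3 * (u + 1), by ring⟩) (ZMod d)).toAddMonoidHom.comp
      (AddMonoidHom.snd _ _)
  have sj : Function.Surjective φ := fun y => by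
    obtain ⟨x, hx⟩ := ZMod.castHom_surjective
      (show d ∣ 3 * (d * (u + 1)) from ⟨3 * (u + 1), by ring⟩) y
    exact ⟨(0, x), hx⟩
  have fib : ∀ i ≤ c, (univ.filter fun x => (φ x).val = i).card = 9 * (u + 1) := by
    intro i hi
    obtain ⟨p1, p2⟩ := Pool.Agent.H15.Kne.pre φ sj {(i : ZMod d)}
    rw [Nat.card_prod, Nat.card_zmod, Nat.card_zmod, Nat.card_zmod] at p2
    rw [Set.ncard_singleton, one_mul] at p1
    have : Nat.card φ.ker = 9 * (u + 1) :=
      Nat.eq_of_mul_eq_mul_left (show 0 < d by omega) (by rw [← p2]; ring)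
    rw [← this, ← p1, ← Set.ncard_coe_finset]
    congr 1; ext x
    simp only [coe_filter, mem_univ, true_and, Set.mem_setOf_eq, Set.mem_preimage,
      Set.mem_singleton_iff]
    constructor
    · rintro rfl; simp
    · intro e; rw [e, ZMod.val_cast_of_lt (by omega)]
  set P := univ.filter fun x => (φ x).val ≤ c with hP
  have fP : ∀ i ≤ c, (P.filter fun x => (φ x).val = i).card = 9 * (u + 1) := by
    intro i hi
    rw [← fib i hi, hP, filter_filter]
    congr 1; ext x; simp only [mem_filter, mem_univ, true_and]; omega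
  have mp : ∀ x ∈ P, (φ x).val ∈ range (c + 1) := fun x hx =>
    mem_range.2 (Nat.lt_succ_of_le (mem_filter.1 hx).2)
  have cP : P.card = (c + 1) * (9 * (u + 1)) := by
    rw [card_eq_sum_card_fiberwise mp, sum_congr rfl fun i hi =>
      fP i (Nat.lt_succ_iff.1 (mem_range.1 hi))]
    simp
  have sP : (∑ x ∈ P, (φ x).val) * 2 = 9 * (u + 1) * ((c + 1) * c) := by
    rw [← sum_fiberwise_of_maps_to mp, sum_congr rfl fun i hi => show
      ∑ x ∈ P.filter (fun x => (φ x).val = i), (φ x).val = 9 * (u + 1) * i by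
        rw [sum_congr rfl fun x hx => (mem_filter.1 hx).2, sum_const,
          fP i (Nat.lt_succ_iff.1 (mem_range.1 hi)), smul_eq_mul], ← mul_sum, mul_assoc,
      sum_range_id_mul_two, Nat.add_sub_cancel]
  obtain ⟨E, sE, cE, tE⟩ : ∃ E ⊆ P, E.card = 3 * u ∧ ∑ x ∈ E, (φ x).val = (-(u : ZMod d)).val := by
    rcases Nat.eq_zero_or_pos u with rfl | hu
    · exact ⟨∅, by simp, by simp, by simp⟩
    · refine pick P _ c _ _ (by omega) ?_ fun i hi => by rw [fP i hi]; omega
      have := ZMod.val_lt (-(u : ZMod d))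
      have : 2 ≤ u := by omega
      have : 1 ≤ c := by omega
      nlinarith
  have cast : ∀ S : Finset (ZMod 3 × ZMod (3 * (d * (u + 1)))),
      φ (∑ x ∈ S, x) = ((∑ x ∈ S, (φ x).val : ℕ) : ZMod d) := fun S => by
    rw [map_sum]; push_cast; simp
  have d0 : 3 * (c : ZMod d) + 2 = 0 := by
    have : ((3 * c + 2 : ℕ) : ZMod d) = 0 := (ZMod.natCast_eq_zero_iff _ _).2 (by rw [hc])
    exact_mod_cast this
  have hv : φ (∑ x ∈ P, x) = -(u + 1) := by
    obtain ⟨j, hj⟩ : ∃ j, c = 2 * j + 1 := ⟨c / 2, by omega⟩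
    have e : ∑ x ∈ P, (φ x).val = 9 * (u + 1) * ((j + 1) * c) := by
      apply Nat.eq_of_mul_eq_mul_right (show 0 < 2 by omega)
      rw [sP, hj]; ring
    rw [cast, e]
    rw [hj] at d0 ⊢
    push_cast at d0 ⊢
    linear_combination (u + 1) * (3 * j + 2) * d0
  have cA : (P \ E).card = 3 * (d * (u + 1)) + 3 := by
    rw [card_sdiff_of_subset sE, cP, cE, hc]
    apply Nat.sub_eq_of_eq_add; ring
  refine ⟨P \ E, fun B hB cB e => ?_, cA⟩
  have c3 : ((P \ E) \ B).card = 3 := by rw [card_sdiff_of_subset hB, cA, cB]; omega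
  have v : φ (∑ x ∈ (P \ E) \ B, x) = -1 := by
    rw [sum_sdiff_eq_sub hB, sum_sdiff_eq_sub sE, e, sub_zero, map_sub, hv, cast, tE]
    simp
  have b := sum_le_card_nsmul ((P \ E) \ B) (fun x => (φ x).val) c fun x hx =>
    (mem_filter.1 (mem_sdiff.1 (mem_sdiff.1 hx).1).1).2
  rw [c3, smul_eq_mul] at b
  rw [cast, eq_neg_iff_add_eq_zero, ← Nat.cast_succ, ZMod.natCast_eq_zero_iff] at v
  have := Nat.le_of_dvd (Nat.succ_pos _) v
  omega

theorem result :
    (∀ k, 500 ≤ k → ∀ A : Finset (ZMod 3 × ZMod (3 * k)), Free (3 * k) A → A.card ≤ 3 * k + 3) ∧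
    (∀ k d t, k = d * t → d % 6 = 5 → 0 < t → t ≠ 2 →
      ∃ A : Finset (ZMod 3 × ZMod (3 * k)), Free (3 * k) A ∧ A.card = 3 * k + 3) :=
  ⟨up, by rintro _ d t rfl h1 h2 h3; exact low d t h1 h2 h3⟩

end Pool.Agent.Results.MP_e67b39_co.Bounds
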